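import Pool.Agent.Q35.ST.Stm

/-!
# Project ST of helper35, job CZ: common zeros (helper46)
-/

set_option autoImplicit false

namespace Pool.Agent.Q46.ST

open MvPolynomial Pool.Agent.Q35.ST

section

variable {κ : Type} {n : κ → ℕ} {k : Type} [Field k]

/-- the Euler derivation of the factor `l` -/
noncomputable def eul (l : κ) : Derivation k (MvPolynomial (Pc n) k) (MvPolynomial (Pc n) k) :=
  ∑ i : Fin (n l + 1), (X (⟨l, i⟩ : Pc n) : MvPolynomial (Pc n) k) • pderiv (⟨l, i⟩ : Pc n)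

theorem eul_apply (l : κ) (f : MvPolynomial (Pc n) k) :
    eul l f = ∑ i : Fin (n l + 1), X (⟨l, i⟩ : Pc n) * pderiv (⟨l, i⟩ : Pc n) f := by
  unfold eul
  have h : ∀ (s : Finset (Fin (n l + 1))) (D : Fin (n l + 1) →
      Derivation k (MvPolynomial (Pc n) k) (MvPolynomial (Pc n) k)),
      (∑ i ∈ s, D i) f = ∑ i ∈ s, D i f := by
    intro s D
    classical
    induction s using Finset.induction_on with
    | empty => simp
    | insert a s ha ih => rw [Finset.sum_insert ha, Finset.sum_insert ha, Derivation.add_apply, ih]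
  rw [h]
  rfl

theorem eul_hom (l : κ) (d : ℕ) (f : MvPolynomial (Pc n) k)
    (hf : ∀ m ∈ f.support, ∑ i, m ⟨l, i⟩ = d) : eul l f = d • f := by
  rw [eul_apply]
  conv_lhs => rw [f.as_sum]
  conv_rhs => rw [f.as_sum]
  rw [Finset.smul_sum]
  simp_rw [map_sum, Finset.mul_sum]
  rw [Finset.sum_comm]
  refine Finset.sum_congr rfl fun m hm => ?_
  rw [← hf m hm, Finset.sum_smul]
  refine Finset.sum_congr rfl fun i _ => ?_
  rw [X_mul_pderiv_monomial]

/-- a derivation which maps the generators of an ideal into it maps the ideal into it -/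
theorem der_span {A : Type} [CommRing A] [Algebra k A] (D : Derivation k A A) (S : Set A)
    (h : ∀ g ∈ S, D g ∈ Ideal.span S) : ∀ f ∈ Ideal.span S, D f ∈ Ideal.span S := by
  intro f hf
  refine Submodule.span_induction (p := fun x _ => D x ∈ Ideal.span S) ?_ ?_ ?_ ?_ hf
  · intro x hx; exact h x hx
  · simp
  · intro x y _ _ hx hy
    rw [map_add]; exact Ideal.add_mem _ hx hy
  · intro a x hx hDx
    rw [smul_eq_mul, Derivation.leibniz, smul_eq_mul, smul_eq_mul]
    refine Ideal.add_mem _ (Ideal.mul_mem_left _ _ hDx) ?_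
    exact Ideal.mul_mem_right _ _ hx

theorem eul_X_sub_C (l : κ) (s : Pc n) (hs : s.1 ≠ l) (a : k) : eul l (X s - C a) = 0 := by
  classical
  rw [eul_apply]
  refine Finset.sum_eq_zero fun i _ => ?_
  have : s ≠ (⟨l, i⟩ : Pc n) := by
    rintro rfl; exact hs rfl
  rw [map_sub, pderiv_C, pderiv_X_of_ne this]
  simp

theorem eul_rename (l j : κ) (α : MvPolynomial (Fin (n j + 1)) k) (e : ℕ)
    (hα : α.IsHomogeneous e) :
    ∃ c : ℕ, eul l (rename (fun i => (⟨j, i⟩ : Pc n)) α) =
      c • rename (fun i => (⟨j, i⟩ : Pc n)) α := by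
  classical
  have hinj : Function.Injective (fun i => (⟨j, i⟩ : Pc n)) := by
    intro a b h
    simpa using h
  by_cases hlj : j = l
  · subst hlj
    refine ⟨e, eul_hom _ _ _ ?_⟩
    intro m hm
    rw [support_rename_of_injective hinj, Finset.mem_image] at hm
    obtain ⟨a, ha, rfl⟩ := hm
    have h1 := hα (mem_support_iff.1 ha)
    rw [Finsupp.weight_apply, Finsupp.sum_fintype _ _ (by simp)] at h1
    rw [← h1]
    refine Finset.sum_congr rfl fun i _ => ?_
    rw [Finsupp.mapDomain_apply hinj]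
    simp
  · refine ⟨0, eul_hom _ _ _ ?_⟩
    intro m hm
    rw [support_rename_of_injective hinj, Finset.mem_image] at hm
    obtain ⟨a, ha, rfl⟩ := hm
    refine Finset.sum_eq_zero fun i _ => ?_
    rw [Finsupp.mapDomain_of_notMem_range]
    rintro ⟨i', hi'⟩
    exact hlj (congrArg Sigma.fst hi')

end

/-- the main step -/
theorem step (ln : S_LN) (inf' : S_INF) (mn : S_MIN) {κ : Type} [Fintype κ] [DecidableEq κ]
    {n : κ → ℕ} {k : Type} [Field k] [CharZero k] [IsAlgClosed k] (T : Finset κ)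
    (J : Ideal (MvPolynomial (Pc n) k)) (hJ : ∀ l ∈ T, ∀ f ∈ J, eul l f ∈ J) (z0 : Pc n → k)
    (hz0 : ∀ s : Pc n, s.1 ∉ T → X s - C (z0 s) ∈ J) (p : κ) (hp : p ∈ T) (hnp : 2 ≤ n p)
    (α : MvPolynomial (Fin (n p + 1)) k) (e : ℕ) (he : e ≠ 0) (hα : α.IsHomogeneous e)
    (H : ∀ c : Fin (n p + 1) → k, c ≠ 0 → eval c α = 0 →
      ∃ z : Pc n → k, Van J z ∧ Nz (T : Set κ) z ∧ ∀ i, z ⟨p, i⟩ = c i)
    (U : MvPolynomial (Pc n) k) (u : κ → ℕ) (hU : MH (T : Set κ) u U) (hu : u p ≠ 0) :
    ∃ z, Van J z ∧ Nz (T : Set κ) z ∧ eval z U = 0 := by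
  classical
  have hfin : J.minimalPrimes.Finite := Ideal.finite_minimalPrimes_of_isNoetherianRing _ J
  -- chosen points
  let y : Ideal (MvPolynomial (Pc n) k) → (Pc n → k) := fun P =>
    if h : ∃ z, Van P z ∧ Nz (T : Set κ) z then h.choose else fun _ => 1
  have hyNz : ∀ P, Nz (T : Set κ) (y P) := by
    intro P
    by_cases h : ∃ z, Van P z ∧ Nz (T : Set κ) z
    · simp only [y, dif_pos h]; exact h.choose_spec.2
    · simp only [y, dif_neg h]
      intro l _
      exact ⟨0, one_ne_zero⟩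
  have hyVan : ∀ P, (∃ z, Van P z ∧ Nz (T : Set κ) z) → Van P (y P) := by
    intro P h
    simp only [y, dif_pos h]; exact h.choose_spec.1
  let E : Finset (Fin (n p + 1) → k) := hfin.toFinset.image fun P i => y P ⟨p, i⟩
  have hE : ∀ v ∈ E, v ≠ 0 := by
    intro v hv h0
    obtain ⟨P, -, rfl⟩ := Finset.mem_image.1 hv
    obtain ⟨i, hi⟩ := hyNz P p hp
    exact hi (congrFun h0 i)
  obtain ⟨c, hc0, hcα, hcE⟩ := inf' (n p) k hnp α e he hα E hE
  obtain ⟨z, hzJ, hzN, hzc⟩ := H c hc0 hcα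
  -- the kernel of evaluation
  let K : Ideal (MvPolynomial (Pc n) k) := RingHom.ker (eval z)
  have hKp : K.IsPrime := RingHom.ker_isPrime _
  have hJK : J ≤ K := fun f hf => RingHom.mem_ker.2 (hzJ f hf)
  obtain ⟨P, hPm, hPK⟩ := Ideal.exists_minimalPrimes_le hJK
  have hPz : Van P z := fun f hf => RingHom.mem_ker.1 (hPK hf)
  have hPP : P.IsPrime := hPm.1.1
  have hJP : J ≤ P := hPm.1.2
  have hste : ∀ l ∈ T, StE P l := by
    intro l hl f hf
    have := mn (Pc n) k (eul l) J P (hJ l hl) hPm f hf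
    rwa [eul_apply] at this
  have hyP : Van P (y P) := hyVan P ⟨z, hPz, hzN⟩
  have hnprop : ¬ ∃ a : k, ∀ i, z ⟨p, i⟩ = a * y P ⟨p, i⟩ := by
    rintro ⟨a, ha⟩
    refine hcE (fun i => y P ⟨p, i⟩) (Finset.mem_image.2 ⟨P, hfin.mem_toFinset.2 hPm, rfl⟩)
      ⟨a, fun i => ?_⟩
    rw [← hzc i, ha i]
  obtain ⟨w, hw1, hw2, hw3⟩ := ln κ n k T P hPP hste z0 (fun s hs => hJP (hz0 s hs)) (y P) z hyP
    hPz (hyNz P) hzN p hp hnprop U u hU hu
  exact ⟨w, fun f hf => hw1 f (hJP hf), hw2, hw3⟩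

theorem van_span {σ k : Type} [CommSemiring k] (S : Set (MvPolynomial σ k)) (z : σ → k) :
    Van (Ideal.span S) z ↔ ∀ f ∈ S, eval z f = 0 := by
  constructor
  · intro h f hf
    exact h f (Ideal.subset_span hf)
  · intro h f hf
    have : Ideal.span S ≤ RingHom.ker (eval z) :=
      Ideal.span_le.2 fun g hg => RingHom.mem_ker.2 (h g hg)
    exact RingHom.mem_ker.1 (this hf)

theorem upd_self {κ : Type} [DecidableEq κ] {n : κ → ℕ} {k : Type} (z : Pc n → k) (l : κ)
    (y : Fin (n l + 1) → k) (i : Fin (n l + 1)) : upd z l y ⟨l, i⟩ = y i := by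
  simp [upd]

theorem upd_ne {κ : Type} [DecidableEq κ] {n : κ → ℕ} {k : Type} (z : Pc n → k) (l : κ)
    (y : Fin (n l + 1) → k) (s : Pc n) (hs : s.1 ≠ l) : upd z l y s = z s := by
  simp [upd, Function.update_of_ne hs]

/-- the general form, by induction on the number of factors -/
theorem cz_aux (ln : S_LN) (inf' : S_INF) (mn : S_MIN) (κ : Type) [Fintype κ] [DecidableEq κ]
    (n : κ → ℕ) (k : Type) [Field k] [CharZero k] [IsAlgClosed k]
    (α : (l : κ) → MvPolynomial (Fin (n l + 1)) k) (N : ℕ) : ∀ (T : Finset κ), T.card = N + 1 →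
    (∀ l ∈ T, 2 ≤ n l) → (∀ l ∈ T, ∃ e, e ≠ 0 ∧ (α l).IsHomogeneous e) →
    ∀ (U : κ → MvPolynomial (Pc n) k) (u : κ → κ → ℕ), (∀ l ∈ T, MH (T : Set κ) (u l) (U l)) →
    (∀ l ∈ T, ∀ m ∈ T, m ≠ l → u l m ≠ 0) → (N ≠ 0 ∨ ∃ l ∈ T, u l l ≠ 0) → ∀ z0 : Pc n → k,
    ∃ z : Pc n → k, (∀ s : Pc n, s.1 ∉ T → z s = z0 s) ∧ Nz (T : Set κ) z ∧
      ∀ l ∈ T, eval (fun i => z ⟨l, i⟩) (α l) = 0 ∧ eval z (U l) = 0 := by
  induction N with
  | zero =>
    intro T hT hn hα U u hU hu hsp z0
    obtain ⟨l, rfl⟩ := Finset.card_eq_one.1 hT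
    have hul : u l l ≠ 0 := by
      rcases hsp with h | ⟨l', hl', h⟩
      · exact absurd rfl h
      · rw [Finset.mem_singleton] at hl'; subst hl'; exact h
    obtain ⟨e, he, hαe⟩ := hα l (Finset.mem_singleton_self l)
    let S : Set (MvPolynomial (Pc n) k) := {p | ∃ s : Pc n, s.1 ∉ ({l} : Finset κ) ∧
      p = X s - C (z0 s)} ∪ {rename (fun i => (⟨l, i⟩ : Pc n)) (α l)}
    have hS : ∀ l' ∈ ({l} : Finset κ), ∀ f ∈ Ideal.span S, eul l' f ∈ Ideal.span S := by
      intro l' hl'
      refine der_span _ _ ?_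
      rintro g (⟨s, hs, rfl⟩ | hg)
      · rw [eul_X_sub_C l' s (fun h => hs (h ▸ hl'))]; exact Ideal.zero_mem _
      · rw [Set.mem_singleton_iff] at hg; subst hg
        obtain ⟨c, hc⟩ := eul_rename (n := n) l' l (α l) e hαe
        rw [hc, nsmul_eq_mul]
        exact Ideal.mul_mem_left _ _ (Ideal.subset_span (Or.inr rfl))
    obtain ⟨z, hz1, hz2, hz3⟩ := step ln inf' mn ({l} : Finset κ) (Ideal.span S) hS z0
      (fun s hs => Ideal.subset_span (Or.inl ⟨s, hs, rfl⟩)) l (Finset.mem_singleton_self l)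
      (hn l (Finset.mem_singleton_self l)) (α l) e he hαe (by
        intro c hc0 hc
        refine ⟨upd z0 l c, ?_, ?_, fun i => upd_self z0 l c i⟩
        · rw [van_span]
          rintro g (⟨s, hs, rfl⟩ | hg)
          · rw [map_sub, eval_X, eval_C, upd_ne z0 l c s (by simpa using hs), sub_self]
          · rw [Set.mem_singleton_iff] at hg; subst hg
            rw [eval_rename]
            have h1 : (upd z0 l c) ∘ (fun i => (⟨l, i⟩ : Pc n)) = c :=
              funext fun i => upd_self z0 l c i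
            rw [h1]; exact hc
        · intro l' hl'
          have : l' = l := by simpa using hl'
          subst this
          obtain ⟨i, hi⟩ := Function.ne_iff.1 hc0
          exact ⟨i, by rw [upd_self]; exact hi⟩) (U l) (u l) (hU l (Finset.mem_singleton_self l))
        hul
    rw [van_span] at hz1
    refine ⟨z, ?_, hz2, ?_⟩
    · intro s hs
      have := hz1 _ (Or.inl ⟨s, hs, rfl⟩)
      rw [map_sub, eval_X, eval_C, sub_eq_zero] at this
      exact this
    · intro l' hl'
      rw [Finset.mem_singleton] at hl'; subst hl'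
      refine ⟨?_, hz3⟩
      have := hz1 _ (Or.inr rfl)
      rw [eval_rename] at this
      exact this
  | succ N ih =>
    intro T hT hn hα U u hU hu _ z0
    obtain ⟨p, hp, m, hm, hpm⟩ := Finset.one_lt_card.1 (show 1 < T.card by omega)
    obtain ⟨e, he, hαe⟩ := hα p hp
    let S : Set (MvPolynomial (Pc n) k) := {q | ∃ s : Pc n, s.1 ∉ T ∧ q = X s - C (z0 s)} ∪
      {q | ∃ l ∈ T, q = rename (fun i => (⟨l, i⟩ : Pc n)) (α l)} ∪
      {q | ∃ l ∈ T, l ≠ m ∧ q = U l}
    have hS : ∀ l' ∈ T, ∀ f ∈ Ideal.span S, eul l' f ∈ Ideal.span S := by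
      intro l' hl'
      refine der_span _ _ ?_
      rintro g ((⟨s, hs, rfl⟩ | ⟨l, hl, rfl⟩) | ⟨l, hl, hlm, rfl⟩)
      · rw [eul_X_sub_C l' s (fun h => hs (h ▸ hl'))]; exact Ideal.zero_mem _
      · obtain ⟨e', he', hαe'⟩ := hα l hl
        obtain ⟨c, hc⟩ := eul_rename (n := n) l' l (α l) e' hαe'
        rw [hc, nsmul_eq_mul]
        exact Ideal.mul_mem_left _ _ (Ideal.subset_span (Or.inl (Or.inr ⟨l, hl, rfl⟩)))
      · rw [eul_hom l' (u l l') (U l) (fun mm hmm => hU l hl mm hmm l' hl'), nsmul_eq_mul]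
        exact Ideal.mul_mem_left _ _ (Ideal.subset_span (Or.inr ⟨l, hl, hlm, rfl⟩))
    obtain ⟨z, hz1, hz2, hz3⟩ := step ln inf' mn T (Ideal.span S) hS z0
      (fun s hs => Ideal.subset_span (Or.inl (Or.inl ⟨s, hs, rfl⟩))) p hp (hn p hp) (α p) e he hαe
      (by
        intro c hc0 hc
        obtain ⟨z, hz1, hz2, hz3⟩ := ih (T.erase p) (by rw [Finset.card_erase_of_mem hp, hT]; rfl)
          (fun l hl => hn l (Finset.mem_of_mem_erase hl))
          (fun l hl => hα l (Finset.mem_of_mem_erase hl))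
          (fun l => if l = m then U p else U l) (fun l => if l = m then u p else u l)
          (by
            intro l hl mm hmm l'' hl''
            have hl2 : l'' ∈ (T : Set κ) := Finset.mem_of_mem_erase (Finset.mem_coe.1 hl'')
            by_cases h : l = m
            · simp only [h, if_true] at hmm ⊢
              exact hU p hp mm hmm l'' hl2
            · simp only [h, if_false] at hmm ⊢
              exact hU l (Finset.mem_of_mem_erase hl) mm hmm l'' hl2)
          (by
            intro l hl m' hm' hne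
            by_cases h : l = m
            · simp only [h, if_true]
              exact hu p hp m' (Finset.mem_of_mem_erase hm') (Finset.ne_of_mem_erase hm')
            · simp only [h, if_false]
              exact hu l (Finset.mem_of_mem_erase hl) m' (Finset.mem_of_mem_erase hm') hne)
          (Or.inr ⟨m, Finset.mem_erase.2 ⟨hpm.symm, hm⟩, by
            simp only [if_true]; exact hu p hp m hm hpm.symm⟩) (upd z0 p c)
        have hzp : ∀ i, z ⟨p, i⟩ = c i := by
          intro i
          rw [hz1 ⟨p, i⟩ (by simp), upd_self]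
        refine ⟨z, ?_, ?_, hzp⟩
        · rw [van_span]
          rintro g ((⟨s, hs, rfl⟩ | ⟨l, hl, rfl⟩) | ⟨l, hl, hlm, rfl⟩)
          · rw [map_sub, eval_X, eval_C, hz1 s (fun h => hs (Finset.mem_of_mem_erase h)),
              upd_ne z0 p c s (fun h => hs (h ▸ hp)), sub_self]
          · rw [eval_rename]
            by_cases h : l = p
            · subst h
              have h1 : z ∘ (fun i => (⟨l, i⟩ : Pc n)) = c := funext fun i => hzp i
              rw [h1]; exact hc
            · exact (hz3 l (Finset.mem_erase.2 ⟨h, hl⟩)).1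
          · by_cases h : l = p
            · subst h
              have := (hz3 m (Finset.mem_erase.2 ⟨hpm.symm, hm⟩)).2
              simpa using this
            · have := (hz3 l (Finset.mem_erase.2 ⟨h, hl⟩)).2
              simpa [hlm] using this
        · intro l hl
          by_cases h : l = p
          · subst h
            obtain ⟨i, hi⟩ := Function.ne_iff.1 hc0
            exact ⟨i, by rw [hzp]; exact hi⟩
          · exact hz2 l (Finset.mem_coe.2 (Finset.mem_erase.2 ⟨h, Finset.mem_coe.1 hl⟩)))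
      (U m) (u m) (hU m hm) (hu m hm p hp hpm)
    rw [van_span] at hz1
    refine ⟨z, ?_, hz2, ?_⟩
    · intro s hs
      have := hz1 _ (Or.inl (Or.inl ⟨s, hs, rfl⟩))
      rw [map_sub, eval_X, eval_C, sub_eq_zero] at this
      exact this
    · intro l hl
      refine ⟨?_, ?_⟩
      · have := hz1 _ (Or.inl (Or.inr ⟨l, hl, rfl⟩))
        rw [eval_rename] at this
        exact this
      · by_cases h : l = m
        · subst h; exact hz3
        · exact hz1 _ (Or.inr ⟨l, hl, h, rfl⟩)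

/-- JOB CZ -/
theorem cz (ln : S_LN) (inf' : S_INF) (mn : S_MIN) : S_CZ := by
  intro κ _ _ n k _ _ _ T hT hn α hα U u hU hu z0
  obtain ⟨N, hN⟩ : ∃ N, T.card = (N + 1) + 1 := ⟨T.card - 2, by omega⟩
  exact cz_aux ln inf' mn κ n k α (N + 1) T hN hn hα U u hU hu (Or.inl (Nat.succ_ne_zero N)) z0

end Pool.Agent.Q46.ST
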